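import Pool.Agent.H123R3.P2.N6

/-! # Half-space rigidity fails for every nonlinearity -/

set_option autoImplicit false

open MeasureTheory
open scoped ContDiff Laplacian

namespace Pool.Agent.Results.MP_66e6f4_an.HalfSpaceFails

/-- For every smooth compactly supported `f ≥ 0` there is a smooth solution `u` of
`Δ u = f(u)` in three-dimensional space without critical points, whose positivity set is nonempty
and contained in the half-space `x₁ > 0`, and which is not a function of one coordinate after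
any rigid motion. -/
theorem result (f : ℝ → ℝ) (hf : ContDiff ℝ ∞ f) (hs : HasCompactSupport f)
    (_h0 : ∀ t, 0 ≤ f t) :
    ∃ u : EuclideanSpace ℝ (Fin 3) → ℝ,
      ContDiff ℝ ∞ u ∧
      (∀ x, (Δ u) x = f (u x)) ∧
      (∀ x, fderiv ℝ u x ≠ 0) ∧
      (∀ x, 0 < u x → 0 < x 0) ∧
      (∃ x, 0 < u x) ∧
      ¬ ∃ (g : EuclideanSpace ℝ (Fin 3) ≃ᵃⁱ[ℝ] EuclideanSpace ℝ (Fin 3)) (V : ℝ → ℝ),
        ∀ x, u x = V ((g x) 0) :=
  Pool.Agent.H123R3.P2.main2 f hf hs

end Pool.Agent.Results.MP_66e6f4_an.HalfSpaceFails
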